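import Pool.Agent.H.MP_83e36b_nt.h48.NormMain
import Pool.Agent.H.DiscRat.VWA

/-!
# Weak approximation for `G (w) * disc (f) = N_{K/k} (z)`, all degrees `n`
-/

open Polynomial NumberField IsDedekindDomain Filter Topology

namespace AnWA

/-- every completion contains elements of norm greater than one -/
theorem compl_one_lt_norm {k : Type*} [Field k] [NumberField k]
    (T : Finset (HeightOneSpectrum (𝓞 k))) (i) : ∃ x : Compl T i, 1 < ‖x‖ := by
  rcases i with v | v
  · refine ⟨complEmb T (Sum.inl v) 2, ?_⟩
    rw [norm_complEmb]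
    show 1 < v (2 : k)
    rw [← InfinitePlace.norm_embedding_eq v 2, map_ofNat]
    norm_num
  · let iN : NontriviallyNormedField (v.1.adicCompletion k) :=
      Valued.toNontriviallyNormedField (v.1.adicCompletion k) (WithZero (Multiplicative ℤ))
    exact iN.non_trivial

/-- Weak approximation at all places, all `n ≥ 2`. -/
theorem norm_main_alln {k : Type*} [Field k] {K : Type*} [Field K] [Algebra k K] {m : ℕ}
    [NumberField k] {r : ℕ} (G : MvPolynomial (Fin r) k)
    (b : Module.Basis (Fin m) k K) {n : ℕ}
    (hn : 2 ≤ n) (hmn : Nat.gcd m (n * (n - 1)) ∣ 2) :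
    DenseRange (fun p : NormPts G n b k =>
      ((fun v : InfinitePlace k => mapNormPt (Algebra.ofId k v.Completion) p),
       (fun v : HeightOneSpectrum (𝓞 k) =>
        mapNormPt (Algebra.ofId k (v.adicCompletion k)) p))) := by
  have h := norm_main_all G b hmn (fun _ => True)
    (fun T _ c => by
      have hne : Nonempty (InfinitePlace k ⊕ {v // v ∈ T}) :=
        ⟨Sum.inl (Classical.arbitrary (InfinitePlace k))⟩
      exact DiscRat.discWA_all (fieldWA_numberField T) (compl_one_lt_norm T) hn c)
  rintro ⟨A, B⟩
  have h1 := h (A, fun v => B v.1)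
  have hc : Continuous (fun x : (∀ v : InfinitePlace k, NormPts G n b v.Completion) ×
      (∀ v : {v : HeightOneSpectrum (𝓞 k) // True}, NormPts G n b (v.1.adicCompletion k)) =>
      ((x.1, fun v => x.2 ⟨v, trivial⟩) : (∀ v : InfinitePlace k, NormPts G n b v.Completion) ×
      (∀ v : HeightOneSpectrum (𝓞 k), NormPts G n b (v.adicCompletion k)))) := by
    refine continuous_fst.prodMk (continuous_pi fun v => ?_)
    exact (continuous_apply (⟨v, trivial⟩ : {v : HeightOneSpectrum (𝓞 k) // True})).comp
      continuous_snd
  have h2 := map_mem_closure hc h1 (t := Set.range (fun p : NormPts G n b k =>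
      ((fun v : InfinitePlace k => mapNormPt (Algebra.ofId k v.Completion) p),
       (fun v : HeightOneSpectrum (𝓞 k) =>
        mapNormPt (Algebra.ofId k (v.adicCompletion k)) p)))) (by
      rintro _ ⟨p, rfl⟩
      exact ⟨p, rfl⟩)
  exact h2

end AnWA
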