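import Pool.Agent.H.MP_83e36b_nt.Statement

/-!
# The varieties `G (w) * disc (f) = N_{K/k} (z)`

For a finite extension `K / k` of fields with `k`-basis `b` we consider the norm form
`N_{K/k} (z) = N (z_1 b_1 + ... + z_m b_m)`, extended to every `k`-algebra `R`, and, for a
polynomial `G` in `r` variables over `k`, the variety of triples `(w, f, z)` with `w` in affine
`r`-space, `f` monic of degree `n`, `z` in affine `m`-space and
`G (w) * disc (f) = N_{K/k} (z)` nonzero.
-/

open Polynomial TensorProduct

namespace AnWA

variable {k : Type*} [Field k] {K : Type*} [Field K] [Algebra k K] {m : ℕ}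

/-- The norm form of `K / k` with respect to the basis `b`, over the `k`-algebra `R`: the norm
from `R ⊗ K` to `R` of `z_1 b_1 + ... + z_m b_m`. -/
noncomputable def normForm (b : Module.Basis (Fin m) k K) (R : Type*) [CommRing R] [Algebra k R]
    (z : Fin m → R) : R :=
  Algebra.norm R (∑ i, z i ⊗ₜ[k] b i : R ⊗[k] K)

/-- The `R`-points (`R` a field containing `k`) of the variety
`G (w) * disc (f) = N_{K/k} (z) ≠ 0`, where `f = X ^ n + a_{n-1} X ^ (n-1) + ... + a_0`: the set of
the triples `((w_1, ..., w_r), (a_0, ..., a_{n-1}), (z_1, ..., z_m))`.  If `R` is a topological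
field it carries the subspace topology. -/
def NormPts {r : ℕ} (G : MvPolynomial (Fin r) k) (n : ℕ) (b : Module.Basis (Fin m) k K)
    (R : Type*) [CommRing R] [Algebra k R] : Set ((Fin r → R) × (Fin n → R) × (Fin m → R)) :=
  {p | MvPolynomial.aeval p.1 G * (monicPoly p.2.1).discr = normForm b R p.2.2 ∧
    normForm b R p.2.2 ≠ 0}

/-- The matrix of multiplication by `z_1 b_1 + ... + z_m b_m`. -/
noncomputable def normMat (b : Module.Basis (Fin m) k K) (R : Type*) [CommRing R] [Algebra k R]
    (z : Fin m → R) : Matrix (Fin m) (Fin m) R :=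
  ∑ i, z i • (Algebra.leftMulMatrix b (b i)).map (algebraMap k R)

theorem leftMulMatrix_tmul (b : Module.Basis (Fin m) k K) (R : Type*) [CommRing R] [Algebra k R]
    (r : R) (x : K) :
    Algebra.leftMulMatrix (b.baseChange R) (r ⊗ₜ[k] x : R ⊗[k] K)
      = r • (Algebra.leftMulMatrix b x).map (algebraMap k R) := by
  ext i j
  rw [Algebra.leftMulMatrix_eq_repr_mul, Matrix.smul_apply, Matrix.map_apply,
    Algebra.leftMulMatrix_eq_repr_mul, Module.Basis.baseChange_apply,
    Algebra.TensorProduct.tmul_mul_tmul, mul_one, Module.Basis.baseChange_repr_tmul, smul_eq_mul,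
    Algebra.smul_def, mul_comm]

theorem normForm_eq_det (b : Module.Basis (Fin m) k K) (R : Type*) [CommRing R] [Algebra k R]
    (z : Fin m → R) : normForm b R z = (normMat b R z).det := by
  rw [normForm, Algebra.norm_eq_matrix_det (b.baseChange R), map_sum, normMat]
  simp only [leftMulMatrix_tmul]

/-- The norm form commutes with homomorphisms of `k`-algebras. -/
theorem normForm_map (b : Module.Basis (Fin m) k K) {R S : Type*} [CommRing R] [Algebra k R]
    [CommRing S] [Algebra k S] (φ : R →ₐ[k] S) (z : Fin m → R) :
    normForm b S (fun i => φ (z i)) = φ (normForm b R z) := by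
  rw [normForm_eq_det, normForm_eq_det]
  have h := φ.toRingHom.map_det (normMat b R z)
  have h2 : φ.toRingHom.mapMatrix (normMat b R z) = normMat b S (fun i => φ (z i)) := by
    ext i j
    simp only [normMat, RingHom.mapMatrix_apply, Matrix.map_apply, Matrix.sum_apply,
      Matrix.smul_apply, smul_eq_mul, map_sum, map_mul, AlgHom.toRingHom_eq_coe,
      RingHom.coe_coe, AlgHom.commutes]
  rw [h2] at h
  exact h.symm

/-- The norm form is homogeneous of degree `m`. -/
theorem normForm_smul (b : Module.Basis (Fin m) k K) (R : Type*) [CommRing R] [Algebra k R]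
    (l : R) (z : Fin m → R) : normForm b R (fun i => l * z i) = l ^ m * normForm b R z := by
  rw [normForm_eq_det, normForm_eq_det]
  have h : normMat b R (fun i => l * z i) = l • normMat b R z := by
    rw [normMat, normMat, Finset.smul_sum]
    exact Finset.sum_congr rfl fun i _ => by rw [← smul_smul]
  rw [h, Matrix.det_smul, Fintype.card_fin]

/-- Over `k` the norm form is the norm of `K / k`. -/
theorem normForm_self (b : Module.Basis (Fin m) k K) (z : Fin m → k) :
    normForm b k z = Algebra.norm k (∑ i, z i • b i) := by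
  rw [normForm_eq_det, Algebra.norm_eq_matrix_det b, map_sum, normMat]
  congr 1
  refine Finset.sum_congr rfl fun i _ => ?_
  rw [map_smul]
  congr 1

/-- The map on points induced by a homomorphism `φ` of fields containing `k`: apply `φ` to all
coordinates. -/
noncomputable def mapNormPt {R S : Type*} [Field R] [Field S] [Algebra k R] [Algebra k S]
    (φ : R →ₐ[k] S) {r : ℕ} {G : MvPolynomial (Fin r) k} {n : ℕ} {b : Module.Basis (Fin m) k K}
    (p : NormPts G n b R) : NormPts G n b S :=
  ⟨(fun i => φ (p.1.1 i), fun i => φ (p.1.2.1 i), fun i => φ (p.1.2.2 i)), by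
    refine ⟨?_, ?_⟩
    · show MvPolynomial.aeval (fun i => φ (p.1.1 i)) G
        * (monicPoly (fun i => φ (p.1.2.1 i))).discr = normForm b S (fun i => φ (p.1.2.2 i))
      have h := discr_monicPoly_map (φ : R →+* S) p.1.2.1
      simp only [RingHom.coe_coe] at h
      have h2 : MvPolynomial.aeval (fun i => φ (p.1.1 i)) G = φ (MvPolynomial.aeval p.1.1 G) :=
        (DFunLike.congr_fun (MvPolynomial.comp_aeval p.1.1 φ) G).symm
      rw [h, normForm_map, ← p.2.1, map_mul, h2]
    · show normForm b S (fun i => φ (p.1.2.2 i)) ≠ 0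
      rw [normForm_map]
      exact fun h => p.2.2 ((map_eq_zero (φ : R →+* S)).mp h)⟩

end AnWA
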