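import Pool.Agent.H.MP_83e36b_nt.Defs
import Pool.Agent.H.MP_83e36b_nt.A2_Res
import Pool.Agent.H.MP_83e36b_nt.H1b
import Pool.Agent.H.MP_83e36b_nt.Statement

/-!
# Scaling the roots, square roots near one, and the abstract approximation argument
-/

open Polynomial Filter Topology

namespace AnWA

theorem derivative_scaleRoots {F : Type*} [Field F] [CharZero F] (f : F[X]) (s : F) :
    derivative (f.scaleRoots s) = (derivative f).scaleRoots s := by
  ext i
  rw [coeff_derivative, coeff_scaleRoots, coeff_scaleRoots, coeff_derivative,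
    natDegree_derivative]
  rcases Nat.lt_or_ge f.natDegree (i + 1) with h | h
  · rw [coeff_eq_zero_of_natDegree_lt h]
    ring
  · have e : f.natDegree - (i + 1) = f.natDegree - 1 - i := by omega
    rw [e]
    ring

/-- the discriminant after scaling the roots -/
theorem discr_scaleRoots {F : Type*} [Field F] [CharZero F] {f : F[X]} (hf : f.Monic) (s : F) :
    (f.scaleRoots s).discr = s ^ (f.natDegree * (f.natDegree - 1)) * f.discr := by
  have hf' : (f.scaleRoots s).Monic := (monic_scaleRoots_iff s).mpr hf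
  have h1 := res_deriv hf
  have h2 := res_deriv hf'
  rw [derivative_scaleRoots, resultant_scaleRoots, h1, natDegree_scaleRoots] at h2
  have hne : ((-1 : F)) ^ (f.natDegree * (f.natDegree - 1) / 2) ≠ 0 := pow_ne_zero _ (by norm_num)
  refine mul_left_cancel₀ hne ?_
  rw [← h2, natDegree_derivative]
  ring

/-- Elements near one have a square root near one, depending on the element by a function. -/
def SqrtNearOne (F : Type*) [NormedField F] : Prop :=
  ∃ r : F → F, Tendsto r (𝓝 1) (𝓝 1) ∧ ∀ᶠ x in 𝓝 (1 : F), r x ^ 2 = x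

theorem sqrtNearOne_of_complete (F : Type*) [NontriviallyNormedField F] [CompleteSpace F]
    [CharZero F] : SqrtNearOne F := by
  have hd : HasStrictDerivAt (fun x : F => x ^ 2) 2 1 := by
    have h := hasStrictDerivAt_pow 2 (1 : F)
    simpa using h
  have h2 : (2 : F) ≠ 0 := two_ne_zero
  refine ⟨hd.localInverse _ _ _ h2, ?_, ?_⟩
  · have h3 := (hd.to_localInverse h2).hasDerivAt.continuousAt
    have h4 : hd.localInverse (fun x : F => x ^ 2) 2 1 h2 ((1 : F) ^ 2) = 1 :=
      HasStrictFDerivAt.localInverse_apply_image (hd.hasStrictFDerivAt_equiv h2)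
    rw [ContinuousAt, h4] at h3
    simpa using h3
  · have h3 := HasStrictFDerivAt.eventually_right_inverse (hd.hasStrictFDerivAt_equiv h2)
    simpa using h3

/-- the exponents `A`, `B` with `N A + 2 = m B` -/
theorem exists_exponents {m N : ℕ} (hm : 0 < m) (h : Nat.gcd m N ∣ 2) :
    ∃ A B : ℕ, N * A + 2 = m * B := by
  -- Bezout over the integers
  obtain ⟨t, ht⟩ := h
  have hb := Nat.gcd_eq_gcd_ab m N
  set u := Nat.gcdA m N
  set w := Nat.gcdB m N
  -- 2 = m (u t) + N (w t)
  have h2 : (2 : ℤ) = m * (u * t) + N * (w * t) := by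
    have : ((2 : ℕ) : ℤ) = ((m.gcd N * t : ℕ) : ℤ) := by rw [ht]
    push_cast at this
    rw [this, hb]
    ring
  -- add multiples
  let s : ℕ := (w * t).natAbs + (u * t).natAbs
  have hs1 : 0 ≤ (m : ℤ) * s - w * t := by
    have h3 : w * t ≤ s := by
      have h5 := le_abs_self (w * t)
      have h6 := abs_nonneg (u * t)
      simp only [s]; push_cast; linarith
    have h4 : (s : ℤ) ≤ m * s := by
      have : (1 : ℤ) ≤ m := by exact_mod_cast hm
      nlinarith [Int.natCast_nonneg s]
    linarith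
  have hs2 : 0 ≤ (m : ℤ) * (u * t + N * s) := by
    nlinarith
  refine ⟨((m : ℤ) * s - w * t).toNat, (u * t + N * s).toNat, ?_⟩
  have hs3 : 0 ≤ u * t + N * s := by
    have hm' : (0 : ℤ) < m := by exact_mod_cast hm
    by_contra hcon
    push Not at hcon
    nlinarith
  have e1 : ((((m : ℤ) * s - w * t).toNat : ℕ) : ℤ) = (m : ℤ) * s - w * t := Int.toNat_of_nonneg hs1
  have e2 : (((u * t + N * s).toNat : ℕ) : ℤ) = u * t + N * s := Int.toNat_of_nonneg hs3
  have : ((N * ((m : ℤ) * s - w * t).toNat + 2 : ℕ) : ℤ)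
      = ((m * (u * t + N * s).toNat : ℕ) : ℤ) := by
    push_cast
    rw [e1, e2]
    linear_combination h2
  exact_mod_cast this

section

variable {k : Type*} [Field k] [CharZero k] {ι : Type*} [Finite ι] [Nonempty ι] {K : ι → Type*}
  [∀ i, NormedField (K i)] {φ : ∀ i, k →+* K i}

/-- The abstract approximation argument: `G` is a form of degree `m` over `k` and `Gi` its
continuous extension to `K i`; `E` is a function over `k` and `Ei` its continuous extension. -/
theorem formWA (hWA : FieldWA φ) {n m : ℕ} (hm : 0 < m)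
    (hgcd : Nat.gcd m (n * (n - 1)) ∣ 2) (hD : ∀ c : k, DiscWA c n φ)
    (hS : ∀ i, SqrtNearOne (K i)) {J : Type*} [Finite J] (G : (J → k) → k)
    (Gi : ∀ i, (J → K i) → K i) (hG : ∀ i z, Gi i (fun j => φ i (z j)) = φ i (G z))
    (hcont : ∀ i, Continuous (Gi i)) (hhom : ∀ (l : k) z, G (fun j => l * z j) = l ^ m * G z)
    {I : Type*} [Finite I] (E : (I → k) → k)
    (Ei : ∀ i, (I → K i) → K i) (hE : ∀ i u, Ei i (fun j => φ i (u j)) = φ i (E u))
    (hEc : ∀ i, Continuous (Ei i))
    (u : ∀ i, I → K i) (f : ∀ i, (K i)[X]) (z : ∀ i, J → K i)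
    (hf : ∀ i, (f i).Monic ∧ (f i).natDegree = n)
    (hfz : ∀ i, Ei i (u i) * (f i).discr = Gi i (z i)) (hz : ∀ i, Gi i (z i) ≠ 0) :
    ∃ (U : ℕ → I → k) (g : ℕ → k[X]) (w : ℕ → J → k), (∀ N, (g N).Monic ∧ (g N).natDegree = n) ∧
      (∀ᶠ N in atTop, E (U N) * (g N).discr = G (w N) ∧ G (w N) ≠ 0) ∧
      (∀ i j, Tendsto (fun N => φ i (U N j)) atTop (𝓝 (u i j))) ∧
      (∀ i, PolyTendsto atTop (fun N => (g N).map (φ i)) (f i)) ∧
      (∀ i j, Tendsto (fun N => φ i (w N j)) atTop (𝓝 (z i j))) := by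
  classical
  obtain ⟨A, B, hAB⟩ := exists_exponents hm hgcd
  have hc0 : ∀ i, Ei i (u i) ≠ 0 := fun i h => hz i (by rw [← hfz i, h, zero_mul])
  -- approximate the coordinates `z` and `u`
  have hex : ∀ j : J, ∃ x : ℕ → k, ∀ i, Tendsto (fun N => φ i (x N)) atTop (𝓝 (z i j)) :=
    fun j => exists_seq hWA fun i => z i j
  choose Z hZ using hex
  have hex' : ∀ j : I, ∃ x : ℕ → k, ∀ i, Tendsto (fun N => φ i (x N)) atTop (𝓝 (u i j)) :=
    fun j => exists_seq hWA fun i => u i j
  choose U hU using hex'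
  have hZt : ∀ i, Tendsto (fun N => fun j => φ i (Z j N)) atTop (𝓝 (z i)) := fun i =>
    tendsto_pi_nhds.mpr fun j => hZ j i
  have hUt : ∀ i, Tendsto (fun N => fun j => φ i (U j N)) atTop (𝓝 (u i)) := fun i =>
    tendsto_pi_nhds.mpr fun j => hU j i
  have hGZ : ∀ i, Tendsto (fun N => φ i (G fun j => Z j N)) atTop (𝓝 (Gi i (z i))) := by
    intro i
    have h := ((hcont i).tendsto (z i)).comp (hZt i)
    refine h.congr fun N => ?_
    exact hG i fun j => Z j N
  have hEU : ∀ i, Tendsto (fun N => φ i (E fun j => U j N)) atTop (𝓝 (Ei i (u i))) := by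
    intro i
    have h := ((hEc i).tendsto (u i)).comp (hUt i)
    refine h.congr fun N => ?_
    exact hE i fun j => U j N
  -- the quotient which is close to one
  set κ : ∀ i, ℕ → K i := fun i N => φ i (E fun j => U j N) * φ i (G fun j => Z j N)
    / (Ei i (u i) * Gi i (z i)) with hκdef
  have hκ : ∀ i, Tendsto (κ i) atTop (𝓝 1) := by
    intro i
    have h := ((hEU i).mul (hGZ i)).div_const (Ei i (u i) * Gi i (z i))
    rwa [div_self (mul_ne_zero (hc0 i) (hz i))] at h
  choose r hr1 hr2 using hS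
  have hs1 : ∀ i, Tendsto (fun N => r i (κ i N)) atTop (𝓝 1) :=
    fun i => (hr1 i).comp (hκ i)
  have hs2 : ∀ᶠ N in atTop, ∀ i, r i (κ i N) ^ 2 = κ i N := by
    rw [Filter.eventually_all]
    exact fun i => (hκ i).eventually (hr2 i)
  have hs3 : ∀ᶠ N in atTop, ∀ i, φ i (G fun j => Z j N) ≠ 0 := by
    rw [Filter.eventually_all]
    exact fun i => (hGZ i).eventually_ne (hz i)
  have hs4 : ∀ᶠ N in atTop, ∀ i, φ i (E fun j => U j N) ≠ 0 := by
    rw [Filter.eventually_all]
    exact fun i => (hEU i).eventually_ne (hc0 i)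
  -- apply weak approximation for the discriminant varieties
  have hex2 : ∀ N : ℕ, ∃ (g : k[X]) (y : k), g.Monic ∧ g.natDegree = n ∧
      ((∀ i, r i (κ i N) ^ 2 = κ i N) → (∀ i, φ i (G fun j => Z j N) ≠ 0) →
        (∀ i, φ i (E fun j => U j N) ≠ 0) →
        ((E fun j => U j N) * (G fun j => Z j N)) * g.discr = y ^ 2 ∧ y ≠ 0 ∧
        ∀ i, ‖φ i y - r i (κ i N) * Gi i (z i)‖ < 1 / ((N : ℝ) + 1) ∧
          ∀ j, ‖(g.map (φ i)).coeff j - (f i).coeff j‖ < 1 / ((N : ℝ) + 1)) := by
    intro N
    by_cases h1 : (∀ i, r i (κ i N) ^ 2 = κ i N) ∧ (∀ i, φ i (G fun j => Z j N) ≠ 0) ∧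
        (∀ i, φ i (E fun j => U j N) ≠ 0)
    · obtain ⟨h1, h2, h2'⟩ := h1
      obtain ⟨g, y, g1, g2, g3, g4, g5⟩ := hD ((E fun j => U j N) * (G fun j => Z j N)) f
        (fun i => r i (κ i N) * Gi i (z i)) (fun i => by
          have hc := hc0 i
          have hzi := hz i
          refine ⟨(hf i).1, (hf i).2, ?_, ?_⟩
          · rw [map_mul, mul_pow, h1 i, hκdef]
            simp only
            rw [← hfz i] at hzi ⊢
            have hd : (f i).discr ≠ 0 := fun h => hzi (by rw [h, mul_zero])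
            field_simp
          · intro h3
            have h4 : r i (κ i N) = 0 := by
              rcases mul_eq_zero.mp h3 with h | h
              · exact h
              · exact absurd h hzi
            have h5 := h1 i
            rw [h4, zero_pow two_ne_zero, hκdef] at h5
            exact (div_ne_zero (mul_ne_zero (h2' i) (h2 i)) (mul_ne_zero hc hzi)) h5.symm)
        (1 / ((N : ℝ) + 1)) (by positivity)
      exact ⟨g, y, g1, g2, fun _ _ _ => ⟨g3, g4, g5⟩⟩
    · refine ⟨X ^ n, 0, monic_X_pow n, natDegree_X_pow n, fun h2 h3 h4 =>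
        absurd ⟨h2, h3, h4⟩ h1⟩
  choose g y hg1 hg2 hg3 using hex2
  have hEv : ∀ᶠ N in atTop, ((E fun j => U j N) * (G fun j => Z j N)) * (g N).discr = y N ^ 2 ∧
        y N ≠ 0 ∧
        ∀ i, ‖φ i (y N) - r i (κ i N) * Gi i (z i)‖
            < 1 / ((N : ℝ) + 1) ∧
          ∀ j, ‖((g N).map (φ i)).coeff j - (f i).coeff j‖ < 1 / ((N : ℝ) + 1) := by
    filter_upwards [hs2, hs3, hs4] with N h1 h2 h3
    exact hg3 N h1 h2 h3
  have hy : ∀ i, Tendsto (fun N => φ i (y N)) atTop (𝓝 (Gi i (z i))) := by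
    intro i
    have h1 : Tendsto (fun N => r i (κ i N) * Gi i (z i)) atTop (𝓝 (Gi i (z i))) := by
      simpa using (hs1 i).mul_const (Gi i (z i))
    have h2 : Tendsto (fun N => φ i (y N) - r i (κ i N) * Gi i (z i)) atTop (𝓝 0) := by
      rw [tendsto_zero_iff_norm_tendsto_zero]
      refine squeeze_zero' (Eventually.of_forall fun N => norm_nonneg _) ?_
        tendsto_one_div_add_atTop_nhds_zero_nat
      filter_upwards [hEv] with N hN
      exact (hN.2.2 i).1.le
    simpa using h2.add h1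
  have hgt : ∀ i j, Tendsto (fun N => φ i ((g N).coeff j)) atTop (𝓝 ((f i).coeff j)) := by
    intro i j
    rw [tendsto_iff_norm_sub_tendsto_zero]
    refine squeeze_zero' (Eventually.of_forall fun N => norm_nonneg _) ?_
      tendsto_one_div_add_atTop_nhds_zero_nat
    filter_upwards [hEv] with N hN
    have := ((hN.2.2 i).2 j).le
    rwa [coeff_map] at this
  -- the ratio
  have hl : ∀ i, Tendsto (fun N => φ i (y N / (G fun j => Z j N))) atTop (𝓝 1) := by
    intro i
    have h := (hy i).div (hGZ i) (hz i)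
    rw [div_self (hz i)] at h
    refine h.congr fun N => ?_
    exact (map_div₀ (φ i) _ _).symm
  refine ⟨fun N j => U j N, fun N => (g N).scaleRoots ((y N / (G fun j => Z j N)) ^ A),
    fun N j => (y N / (G fun j => Z j N)) ^ B * Z j N, ?_, ?_, fun i j => hU j i, ?_, ?_⟩
  · intro N
    exact ⟨(monic_scaleRoots_iff _).mpr (hg1 N), by rw [natDegree_scaleRoots, hg2 N]⟩
  · obtain ⟨i0⟩ := ‹Nonempty ι›
    filter_upwards [hEv, hs3] with N hN hN3
    obtain ⟨h1, h2, -⟩ := hN
    have h3 : (G fun j => Z j N) ≠ 0 := by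
      intro h
      exact hN3 i0 (by rw [h, map_zero])
    have h4 : (E fun j => U j N) * (g N).discr
        = (y N / (G fun j => Z j N)) ^ 2 * (G fun j => Z j N) := by
      field_simp
      linear_combination h1
    have h5 : G (fun j => (y N / (G fun j => Z j N)) ^ B * Z j N)
        = (y N / (G fun j => Z j N)) ^ (n * (n - 1) * A + 2) * (G fun j => Z j N) := by
      rw [hhom, ← pow_mul, mul_comm B m, ← hAB]
    constructor
    · rw [h5, discr_scaleRoots (hg1 N), hg2 N, ← pow_mul, mul_left_comm, h4]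
      ring
    · rw [h5]
      exact mul_ne_zero (pow_ne_zero _ (div_ne_zero h2 h3)) h3
  · intro i j
    have h1 : ∀ N, (((g N).scaleRoots ((y N / (G fun j => Z j N)) ^ A)).map (φ i)).coeff j
        = φ i ((g N).coeff j) * (φ i (y N / (G fun j => Z j N))) ^ (A * (n - j)) := by
      intro N
      rw [coeff_map, coeff_scaleRoots, hg2 N, map_mul, ← pow_mul, map_pow]
    simp only [h1]
    have h2 := (hgt i j).mul ((hl i).pow (A * (n - j)))
    simpa using h2
  · intro i j
    have h2 := ((hl i).pow B).mul (hZ j i)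
    simpa only [map_mul, map_pow, one_pow, one_mul] using h2

end

end AnWA
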