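import Pool.Agent.H.MP_83e36b_nt.J1
import Pool.Agent.H.MP_83e36b_nt.h48.NormDefs
import Pool.Agent.H.MP_83e36b_nt.h48.NormScale

/-!
# Weak approximation for `G (w) * disc (f) = N_{K/k} (z)`
-/

open Polynomial NumberField IsDedekindDomain Filter Topology

namespace AnWA

section Sqrt

theorem sqrtNearOne_infinite {k : Type*} [Field k] (v : InfinitePlace k) :
    SqrtNearOne v.Completion := by
  have hch : CharZero v.Completion := by
    rcases v.isReal_or_isComplex with hv | hv
    · exact (RingHom.charZero_iff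
        (InfinitePlace.Completion.ringEquivRealOfIsReal hv).toRingHom.injective).mpr inferInstance
    · exact (RingHom.charZero_iff
        (InfinitePlace.Completion.ringEquivComplexOfIsComplex hv).toRingHom.injective).mpr
          inferInstance
  let iN : NontriviallyNormedField v.Completion :=
    { (inferInstance : NormedField v.Completion) with
      non_trivial := by
        refine ⟨2, ?_⟩
        have h : ‖(algebraMap k v.Completion 2 : v.Completion)‖ = v 2 :=
          InfinitePlace.Completion.norm_coe v (WithAbs.toAbs v.1 2)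
        have h2 : v (2 : k) = 2 := by
          rw [← InfinitePlace.norm_embedding_eq v 2, map_ofNat]
          norm_num
        rw [h2, map_ofNat] at h
        rw [h]
        norm_num }
  exact sqrtNearOne_of_complete v.Completion

theorem sqrtNearOne_finite {k : Type*} [Field k] [NumberField k] (v : HeightOneSpectrum (𝓞 k)) :
    SqrtNearOne (v.adicCompletion k) := by
  have hch : CharZero (v.adicCompletion k) :=
    (RingHom.charZero_iff (algebraMap k (v.adicCompletion k)).injective).mp inferInstance
  let iN : NontriviallyNormedField (v.adicCompletion k) :=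
    Valued.toNontriviallyNormedField (v.adicCompletion k) (WithZero (Multiplicative ℤ))
  exact sqrtNearOne_of_complete (v.adicCompletion k)

theorem sqrtNearOne_compl {k : Type*} [Field k] [NumberField k]
    (T : Finset (HeightOneSpectrum (𝓞 k))) (i) : SqrtNearOne (Compl T i) := by
  rcases i with v | v
  · exact sqrtNearOne_infinite v
  · exact sqrtNearOne_finite v.1

end Sqrt

variable {k : Type*} [Field k] {K : Type*} [Field K] [Algebra k K] {m : ℕ}

/-- the norm form over the target of a ring homomorphism -/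
noncomputable def normDet (b : Module.Basis (Fin m) k K) {R : Type*} [CommRing R] (φ : k →+* R)
    (z : Fin m → R) : R :=
  (∑ i, z i • (Algebra.leftMulMatrix b (b i)).map φ).det

theorem continuous_normDet (b : Module.Basis (Fin m) k K) {R : Type*} [NormedField R]
    (φ : k →+* R) : Continuous (normDet b φ) := by
  refine Continuous.matrix_det ?_
  exact continuous_finsetSum _ fun i _ => (continuous_apply i).smul continuous_const

theorem normDet_eq (b : Module.Basis (Fin m) k K) (R : Type*) [CommRing R] [Algebra k R]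
    (z : Fin m → R) : normDet b (algebraMap k R) z = normForm b R z :=
  (normForm_eq_det b R z).symm

theorem normDet_map (b : Module.Basis (Fin m) k K) {R : Type*} [Field R] (φ : k →+* R)
    (z : Fin m → k) : normDet b φ (fun j => φ (z j)) = φ (normForm b k z) := by
  let _ := φ.toAlgebra
  have h := normForm_map b (Algebra.ofId k R) z
  rw [← normDet_eq b R] at h
  exact h

theorem basis_pos (b : Module.Basis (Fin m) k K) : 0 < m := by
  rcases Nat.eq_zero_or_pos m with h | h
  · subst h
    exact absurd (b.ext_elem (x := (1 : K)) (y := 0) (fun i => Fin.elim0 i)) one_ne_zero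
  · exact h

theorem eval₂_map_eq {r : ℕ} (G : MvPolynomial (Fin r) k) {R : Type*} [CommRing R] (φ : k →+* R)
    (u : Fin r → k) : MvPolynomial.eval₂ φ (fun j => φ (u j)) G = φ (MvPolynomial.eval u G) := by
  rw [MvPolynomial.eval, MvPolynomial.coe_eval₂Hom, MvPolynomial.hom_eval₂, RingHom.comp_id]

theorem continuous_eval₂ {r : ℕ} (G : MvPolynomial (Fin r) k) {R : Type*} [NormedField R]
    (φ : k →+* R) : Continuous (fun u : Fin r → R => MvPolynomial.eval₂ φ u G) := by
  simp only [MvPolynomial.eval₂_eq]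
  refine continuous_finsetSum _ fun i _ => continuous_const.mul ?_
  exact continuous_finsetProd _ fun j _ => (continuous_apply j).pow _

/-- convergence of points of the variety -/
theorem NormPts.tendsto {R : Type*} [NormedField R] [Algebra k R] {r n : ℕ}
    {G : MvPolynomial (Fin r) k} {b : Module.Basis (Fin m) k K} (p : ℕ → NormPts G n b R)
    (q : NormPts G n b R)
    (h0 : ∀ i : Fin r, Tendsto (fun N => (p N).1.1 i) atTop (𝓝 (q.1.1 i)))
    (h1 : ∀ i : Fin n, Tendsto (fun N => (p N).1.2.1 i) atTop (𝓝 (q.1.2.1 i)))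
    (h2 : ∀ i : Fin m, Tendsto (fun N => (p N).1.2.2 i) atTop (𝓝 (q.1.2.2 i))) :
    Tendsto p atTop (𝓝 q) := by
  have key : Tendsto (fun N => (p N).1) atTop (𝓝 q.1) := by
    rw [Prod.tendsto_iff]
    refine ⟨tendsto_pi_nhds.mpr h0, ?_⟩
    rw [Prod.tendsto_iff]
    exact ⟨tendsto_pi_nhds.mpr h1, tendsto_pi_nhds.mpr h2⟩
  exact tendsto_subtype_rng.2 key

theorem norm_main [NumberField k] {r : ℕ} (G : MvPolynomial (Fin r) k)
    (b : Module.Basis (Fin m) k K) {n : ℕ}
    (hmn : Nat.gcd m (n * (n - 1)) ∣ 2) (T : Finset (HeightOneSpectrum (𝓞 k)))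
    (hD : ∀ c : k, DiscWA c n (complEmb T)) :
    DenseRange (fun p : NormPts G n b k =>
      ((fun v : InfinitePlace k => mapNormPt (Algebra.ofId k v.Completion) p),
       (fun v : T => mapNormPt (Algebra.ofId k (v.1.adicCompletion k)) p))) := by
  rintro ⟨P, Q⟩
  -- the data at all places
  let D0 : ∀ i, Fin r → Compl T i := fun i =>
    match i with
    | Sum.inl v => (P v).1.1
    | Sum.inr v => (Q v).1.1
  let D1 : ∀ i, Fin n → Compl T i := fun i =>
    match i with
    | Sum.inl v => (P v).1.2.1
    | Sum.inr v => (Q v).1.2.1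
  let D2 : ∀ i, Fin m → Compl T i := fun i =>
    match i with
    | Sum.inl v => (P v).1.2.2
    | Sum.inr v => (Q v).1.2.2
  have hne : Nonempty (InfinitePlace k ⊕ {v // v ∈ T}) := ⟨Sum.inl (Classical.arbitrary _)⟩
  obtain ⟨U, g, w, hg, hgw, hUt, hgt, hwt⟩ := formWA (φ := complEmb T) (fieldWA_numberField T)
    (n := n) (m := m) (basis_pos b) hmn hD (sqrtNearOne_compl T) (normForm b k)
    (fun i => normDet b (complEmb T i)) (fun i z => normDet_map b (complEmb T i) z)
    (fun i => continuous_normDet b (complEmb T i)) (fun l z => normForm_smul b k l z)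
    (fun u => MvPolynomial.eval u G) (fun i u => MvPolynomial.eval₂ (complEmb T i) u G)
    (fun i u => eval₂_map_eq G (complEmb T i) u) (fun i => continuous_eval₂ G (complEmb T i))
    D0 (fun i => monicPoly (D1 i)) D2 (fun i => ⟨monicPoly_monic _, monicPoly_natDegree _⟩)
    (by
      rintro (v | v)
      · exact ((P v).2.1).trans (normDet_eq b v.Completion (P v).1.2.2).symm
      · exact ((Q v).2.1).trans (normDet_eq b (v.1.adicCompletion k) (Q v).1.2.2).symm)
    (by
      rintro (v | v)
      · exact fun h => (P v).2.2 ((normDet_eq b v.Completion (P v).1.2.2).symm.trans h)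
      · exact fun h => (Q v).2.2 ((normDet_eq b (v.1.adicCompletion k) (Q v).1.2.2).symm.trans h))
  obtain ⟨N0, hN0⟩ := Filter.eventually_atTop.mp hgw
  let p : ℕ → NormPts G n b k := fun N =>
    ⟨(U (N0 + N), fun i : Fin n => (g (N0 + N)).coeff i, w (N0 + N)), by
      obtain ⟨h1, h2⟩ := hN0 (N0 + N) (Nat.le_add_right _ _)
      refine ⟨?_, h2⟩
      change MvPolynomial.aeval (U (N0 + N)) G
        * (monicPoly (fun i : Fin n => (g (N0 + N)).coeff i)).discr = _
      rw [monicPoly_of_monic (hg _).1 (hg _).2, MvPolynomial.aeval_eq_eval]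
      exact h1⟩
  have hshift : Tendsto (fun N : ℕ => N0 + N) atTop atTop :=
    Filter.tendsto_atTop_mono (fun N => Nat.le_add_left N N0) tendsto_id
  have hp0 : ∀ i (j : Fin r), Tendsto (fun N => complEmb T i ((p N).1.1 j)) atTop
      (𝓝 (D0 i j)) := fun i j => (hUt i j).comp hshift
  have hp1 : ∀ i (j : Fin n), Tendsto (fun N => complEmb T i ((p N).1.2.1 j)) atTop
      (𝓝 (D1 i j)) := by
    intro i j
    have h := (hgt i j).comp hshift
    rw [monicPoly_coeff] at h
    refine h.congr fun N => ?_
    exact coeff_map _ _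
  have hp2 : ∀ i (j : Fin m), Tendsto (fun N => complEmb T i ((p N).1.2.2 j)) atTop
      (𝓝 (D2 i j)) := fun i j => (hwt i j).comp hshift
  refine mem_closure_of_tendsto (f := fun N => ((fun v : InfinitePlace k =>
    mapNormPt (Algebra.ofId k v.Completion) (p N)),
    (fun v : T => mapNormPt (Algebra.ofId k (v.1.adicCompletion k)) (p N)))) (b := atTop) ?_
    (Filter.Eventually.of_forall fun N => ⟨p N, rfl⟩)
  rw [Prod.tendsto_iff]
  constructor
  · rw [tendsto_pi_nhds]
    intro v
    exact NormPts.tendsto _ _ (fun j => hp0 (Sum.inl v) j) (fun j => hp1 (Sum.inl v) j)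
      (fun j => hp2 (Sum.inl v) j)
  · rw [tendsto_pi_nhds]
    intro v
    exact NormPts.tendsto _ _ (fun j => hp0 (Sum.inr v) j) (fun j => hp1 (Sum.inr v) j)
      (fun j => hp2 (Sum.inr v) j)

/-- Weak approximation, product over all infinite places and a set of finite places. -/
theorem norm_main_all [NumberField k] {r : ℕ} (G : MvPolynomial (Fin r) k)
    (b : Module.Basis (Fin m) k K) {n : ℕ}
    (hmn : Nat.gcd m (n * (n - 1)) ∣ 2) (S : HeightOneSpectrum (𝓞 k) → Prop)
    (hD : ∀ T : Finset (HeightOneSpectrum (𝓞 k)), (∀ v ∈ T, S v) →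
      ∀ c : k, DiscWA c n (complEmb T)) :
    DenseRange (fun p : NormPts G n b k =>
      ((fun v : InfinitePlace k => mapNormPt (Algebra.ofId k v.Completion) p),
       (fun v : {v : HeightOneSpectrum (𝓞 k) // S v} =>
        mapNormPt (Algebra.ofId k (v.1.adicCompletion k)) p))) := by
  classical
  rintro ⟨A, B⟩
  rw [mem_closure_iff_nhds]
  intro U hU
  rw [nhds_prod_eq, Filter.mem_prod_iff] at hU
  obtain ⟨U1, hU1, U2, hU2, hsub⟩ := hU
  rw [nhds_pi, Filter.mem_pi] at hU2
  obtain ⟨I, hI, t, ht, hts⟩ := hU2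
  let T : Finset (HeightOneSpectrum (𝓞 k)) := hI.toFinset.image Subtype.val
  have hT : ∀ v ∈ T, S v := by
    intro v hv
    obtain ⟨u, -, rfl⟩ := Finset.mem_image.mp hv
    exact u.2
  have hdense := norm_main G b hmn T (hD T hT)
  have h1 := hdense (A, fun v => B ⟨v.1, hT v.1 v.2⟩)
  rw [mem_closure_iff_nhds] at h1
  have hnhds : U1 ×ˢ (Set.pi Set.univ (fun v : {v // v ∈ T} => t ⟨v.1, hT v.1 v.2⟩)) ∈
      nhds (A, fun v : {v // v ∈ T} => B ⟨v.1, hT v.1 v.2⟩) := by
    rw [nhds_prod_eq]
    refine Filter.prod_mem_prod hU1 ?_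
    exact set_pi_mem_nhds Set.finite_univ (fun v _ => ht ⟨v.1, hT v.1 v.2⟩)
  obtain ⟨_, ⟨hp1, hp2⟩, p, rfl⟩ := h1 _ hnhds
  refine ⟨_, hsub ⟨hp1, hts ?_⟩, p, rfl⟩
  intro v hv
  exact hp2 ⟨v.1, Finset.mem_image.mpr ⟨v, hI.mem_toFinset.mpr hv, rfl⟩⟩ (Set.mem_univ _)

/-- Weak approximation at all places, `n = 2, 3 mod 4`. -/
theorem norm_main_23 [NumberField k] {r : ℕ} (G : MvPolynomial (Fin r) k)
    (b : Module.Basis (Fin m) k K) {n : ℕ}
    (hn : n % 4 = 2 ∨ n % 4 = 3) (hmn : Nat.gcd m (n * (n - 1)) ∣ 2) :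
    DenseRange (fun p : NormPts G n b k =>
      ((fun v : InfinitePlace k => mapNormPt (Algebra.ofId k v.Completion) p),
       (fun v : HeightOneSpectrum (𝓞 k) =>
        mapNormPt (Algebra.ofId k (v.adicCompletion k)) p))) := by
  have h := norm_main_all G b hmn (fun _ => True)
    (fun T _ c => discWA_numberField T hn c)
  rintro ⟨A, B⟩
  have h1 := h (A, fun v => B v.1)
  have hc : Continuous (fun x : (∀ v : InfinitePlace k, NormPts G n b v.Completion) ×
      (∀ v : {v : HeightOneSpectrum (𝓞 k) // True}, NormPts G n b (v.1.adicCompletion k)) =>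
      ((x.1, fun v => x.2 ⟨v, trivial⟩) : (∀ v : InfinitePlace k, NormPts G n b v.Completion) ×
      (∀ v : HeightOneSpectrum (𝓞 k), NormPts G n b (v.adicCompletion k)))) := by
    refine continuous_fst.prodMk (continuous_pi fun v => ?_)
    exact (continuous_apply (⟨v, trivial⟩ : {v : HeightOneSpectrum (𝓞 k) // True})).comp
      continuous_snd
  have h2 := map_mem_closure hc h1 (t := Set.range (fun p : NormPts G n b k =>
      ((fun v : InfinitePlace k => mapNormPt (Algebra.ofId k v.Completion) p),
       (fun v : HeightOneSpectrum (𝓞 k) =>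
        mapNormPt (Algebra.ofId k (v.adicCompletion k)) p)))) (by
      rintro _ ⟨p, rfl⟩
      exact ⟨p, rfl⟩)
  exact h2

end AnWA
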