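import Pool.Agent.H.MP_83e36b_nt.Statement

/-!
# The varieties `G (x) * disc (f) = H (x)`

For polynomials `G` and `H` in `s` variables over the field `k` we consider the variety of pairs
`(x, f)` with `x` in affine `s`-space, `f` monic of degree `n` and
`G (x) * disc (f) = H (x)` nonzero.
-/

open Polynomial

namespace AnWA

variable {k : Type*} [Field k] {s : ℕ}

/-- The `R`-points (`R` a field containing `k`) of the variety `G (x) * disc (f) = H (x) ≠ 0`,
where `f = X ^ n + a_{n-1} X ^ (n-1) + ... + a_0`: the set of the pairs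
`((x_1, ..., x_s), (a_0, ..., a_{n-1}))`.  If `R` is a topological field it carries the subspace
topology. -/
def QuasiPts (G H : MvPolynomial (Fin s) k) (n : ℕ) (R : Type*) [CommRing R] [Algebra k R] :
    Set ((Fin s → R) × (Fin n → R)) :=
  {p | MvPolynomial.aeval p.1 G * (monicPoly p.2).discr = MvPolynomial.aeval p.1 H ∧
    MvPolynomial.aeval p.1 H ≠ 0}

/-- The map on points induced by a homomorphism `φ` of fields containing `k`: apply `φ` to all
coordinates. -/
noncomputable def mapQuasiPt {R S : Type*} [Field R] [Field S] [Algebra k R] [Algebra k S]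
    (φ : R →ₐ[k] S) {G H : MvPolynomial (Fin s) k} {n : ℕ} (p : QuasiPts G H n R) :
    QuasiPts G H n S :=
  ⟨(fun i => φ (p.1.1 i), fun i => φ (p.1.2 i)), by
    have h1 : ∀ P : MvPolynomial (Fin s) k,
        MvPolynomial.aeval (fun i => φ (p.1.1 i)) P = φ (MvPolynomial.aeval p.1.1 P) :=
      fun P => (DFunLike.congr_fun (MvPolynomial.comp_aeval p.1.1 φ) P).symm
    refine ⟨?_, ?_⟩
    · show MvPolynomial.aeval (fun i => φ (p.1.1 i)) G
        * (monicPoly (fun i => φ (p.1.2 i))).discr = MvPolynomial.aeval (fun i => φ (p.1.1 i)) H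
      have h := discr_monicPoly_map (φ : R →+* S) p.1.2
      simp only [RingHom.coe_coe] at h
      rw [h, h1, h1, ← p.2.1, map_mul]
    · show MvPolynomial.aeval (fun i => φ (p.1.1 i)) H ≠ 0
      rw [h1]
      exact fun h => p.2.2 ((map_eq_zero (φ : R →+* S)).mp h)⟩

end AnWA
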