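import Pool.Agent.H.MP_83e36b_nt.J1
import Pool.Agent.H.MP_83e36b_nt.h48.QuasiDefs
import Pool.Agent.H.MP_83e36b_nt.h48.NormAll

/-!
# Weak approximation for `G (x) * disc (f) = H (x)`
-/

open Polynomial NumberField IsDedekindDomain Filter Topology

namespace AnWA

/-- Bezout -/
theorem exists_int_exponents {u v : ℤ} (h : Int.gcd u v ∣ 2) : ∃ A B : ℤ, v * A + 2 = u * B := by
  obtain ⟨t, ht⟩ := h
  have hb := Int.gcd_eq_gcd_ab u v
  have h2 : (2 : ℤ) = (Int.gcd u v : ℤ) * t := by exact_mod_cast ht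
  refine ⟨-(Int.gcdB u v * t), Int.gcdA u v * t, ?_⟩
  rw [h2, hb]
  ring

theorem eval_weighted {k : Type*} [Field k] {s : ℕ} {G : MvPolynomial (Fin s) k} {e : Fin s → ℤ}
    {a : ℤ} (hG : G.IsWeightedHomogeneous e a) {l : k} (hl : l ≠ 0) (x : Fin s → k) :
    MvPolynomial.eval (fun i => l ^ e i * x i) G = l ^ a * MvPolynomial.eval x G := by
  rw [MvPolynomial.eval_eq', MvPolynomial.eval_eq', Finset.mul_sum]
  refine Finset.sum_congr rfl fun d hd => ?_
  have h1 : (∏ i, (l ^ e i * x i) ^ d i) = l ^ a * ∏ i, x i ^ d i := by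
    simp only [mul_pow]
    rw [Finset.prod_mul_distrib]
    congr 1
    have h2 := hG (MvPolynomial.mem_support_iff.1 hd)
    have h3 : (∑ i, e i * (d i : ℤ)) = a := by
      rw [← h2, Finsupp.weight_apply, Finsupp.sum_fintype _ _ (fun i => by simp)]
      refine Finset.sum_congr rfl fun i _ => ?_
      rw [nsmul_eq_mul, mul_comm]
    rw [← h3]
    have h4 : ∀ (S : Finset (Fin s)), (∏ i ∈ S, (l ^ e i) ^ d i) = l ^ (∑ i ∈ S, e i * (d i : ℤ)) := by
      intro S
      classical
      induction S using Finset.induction_on with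
      | empty => simp
      | insert j S hj ih =>
        rw [Finset.prod_insert hj, Finset.sum_insert hj, ih, zpow_add₀ hl, zpow_mul, zpow_natCast]
    exact h4 _
  rw [h1]
  ring

section

variable {k : Type*} [Field k] [CharZero k] {ι : Type*} [Finite ι] [Nonempty ι] {K : ι → Type*}
  [∀ i, NormedField (K i)] {φ : ∀ i, k →+* K i}

/-- The approximation argument. -/
theorem quasiWA (hWA : FieldWA φ) {n : ℕ} {s : ℕ} (G H : MvPolynomial (Fin s) k)
    (e : Fin s → ℤ) {a b : ℤ} (hG : G.IsWeightedHomogeneous e a)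
    (hH : H.IsWeightedHomogeneous e b)
    (hgcd : Int.gcd (b - a) ((n * (n - 1) : ℕ) : ℤ) ∣ 2) (hD : ∀ c : k, DiscWA c n φ)
    (hS : ∀ i, SqrtNearOne (K i))
    (x : ∀ i, Fin s → K i) (f : ∀ i, (K i)[X])
    (hf : ∀ i, (f i).Monic ∧ (f i).natDegree = n)
    (hfz : ∀ i, MvPolynomial.eval₂ (φ i) (x i) G * (f i).discr
      = MvPolynomial.eval₂ (φ i) (x i) H)
    (hz : ∀ i, MvPolynomial.eval₂ (φ i) (x i) H ≠ 0) :
    ∃ (U : ℕ → Fin s → k) (g : ℕ → k[X]), (∀ N, (g N).Monic ∧ (g N).natDegree = n) ∧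
      (∀ᶠ N in atTop, MvPolynomial.eval (U N) G * (g N).discr = MvPolynomial.eval (U N) H ∧
        MvPolynomial.eval (U N) H ≠ 0) ∧
      (∀ i j, Tendsto (fun N => φ i (U N j)) atTop (𝓝 (x i j))) ∧
      (∀ i, PolyTendsto atTop (fun N => (g N).map (φ i)) (f i)) := by
  classical
  obtain ⟨A, B, hAB⟩ := exists_int_exponents hgcd
  have hc0 : ∀ i, MvPolynomial.eval₂ (φ i) (x i) G ≠ 0 := fun i h =>
    hz i (by rw [← hfz i, h, zero_mul])
  -- approximate the coordinates
  have hex : ∀ j : Fin s, ∃ y : ℕ → k, ∀ i, Tendsto (fun N => φ i (y N)) atTop (𝓝 (x i j)) :=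
    fun j => exists_seq hWA fun i => x i j
  choose Z hZ using hex
  have hZt : ∀ i, Tendsto (fun N => fun j => φ i (Z j N)) atTop (𝓝 (x i)) := fun i =>
    tendsto_pi_nhds.mpr fun j => hZ j i
  have hEv0 : ∀ (P : MvPolynomial (Fin s) k) i,
      Tendsto (fun N => φ i (MvPolynomial.eval (fun j => Z j N) P)) atTop
        (𝓝 (MvPolynomial.eval₂ (φ i) (x i) P)) := by
    intro P i
    have h := ((continuous_eval₂ P (φ i)).tendsto (x i)).comp (hZt i)
    refine h.congr fun N => ?_
    exact eval₂_map_eq P (φ i) fun j => Z j N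
  -- the quotient which is close to one
  set κ : ∀ i, ℕ → K i := fun i N => φ i (MvPolynomial.eval (fun j => Z j N) G)
      * φ i (MvPolynomial.eval (fun j => Z j N) H)
    / (MvPolynomial.eval₂ (φ i) (x i) G * MvPolynomial.eval₂ (φ i) (x i) H) with hκdef
  have hκ : ∀ i, Tendsto (κ i) atTop (𝓝 1) := by
    intro i
    have h := ((hEv0 G i).mul (hEv0 H i)).div_const
      (MvPolynomial.eval₂ (φ i) (x i) G * MvPolynomial.eval₂ (φ i) (x i) H)
    rwa [div_self (mul_ne_zero (hc0 i) (hz i))] at h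
  choose r hr1 hr2 using hS
  have hs1 : ∀ i, Tendsto (fun N => r i (κ i N)) atTop (𝓝 1) :=
    fun i => (hr1 i).comp (hκ i)
  have hs2 : ∀ᶠ N in atTop, ∀ i, r i (κ i N) ^ 2 = κ i N := by
    rw [Filter.eventually_all]
    exact fun i => (hκ i).eventually (hr2 i)
  have hs3 : ∀ᶠ N in atTop, ∀ i, φ i (MvPolynomial.eval (fun j => Z j N) H) ≠ 0 := by
    rw [Filter.eventually_all]
    exact fun i => (hEv0 H i).eventually_ne (hz i)
  have hs4 : ∀ᶠ N in atTop, ∀ i, φ i (MvPolynomial.eval (fun j => Z j N) G) ≠ 0 := by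
    rw [Filter.eventually_all]
    exact fun i => (hEv0 G i).eventually_ne (hc0 i)
  -- apply weak approximation for the discriminant varieties
  have hex2 : ∀ N : ℕ, ∃ (g : k[X]) (y : k), g.Monic ∧ g.natDegree = n ∧
      ((∀ i, r i (κ i N) ^ 2 = κ i N) →
        (∀ i, φ i (MvPolynomial.eval (fun j => Z j N) H) ≠ 0) →
        (∀ i, φ i (MvPolynomial.eval (fun j => Z j N) G) ≠ 0) →
        (MvPolynomial.eval (fun j => Z j N) G * MvPolynomial.eval (fun j => Z j N) H) * g.discr
          = y ^ 2 ∧ y ≠ 0 ∧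
        ∀ i, ‖φ i y - r i (κ i N) * MvPolynomial.eval₂ (φ i) (x i) H‖ < 1 / ((N : ℝ) + 1) ∧
          ∀ j, ‖(g.map (φ i)).coeff j - (f i).coeff j‖ < 1 / ((N : ℝ) + 1)) := by
    intro N
    by_cases h1 : (∀ i, r i (κ i N) ^ 2 = κ i N) ∧
        (∀ i, φ i (MvPolynomial.eval (fun j => Z j N) H) ≠ 0) ∧
        (∀ i, φ i (MvPolynomial.eval (fun j => Z j N) G) ≠ 0)
    · obtain ⟨h1, h2, h2'⟩ := h1
      obtain ⟨g, y, g1, g2, g3, g4, g5⟩ := hD (MvPolynomial.eval (fun j => Z j N) G
          * MvPolynomial.eval (fun j => Z j N) H) f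
        (fun i => r i (κ i N) * MvPolynomial.eval₂ (φ i) (x i) H) (fun i => by
          have hc := hc0 i
          have hzi := hz i
          refine ⟨(hf i).1, (hf i).2, ?_, ?_⟩
          · rw [map_mul, mul_pow, h1 i, hκdef]
            simp only
            rw [← hfz i] at hzi ⊢
            have hd : (f i).discr ≠ 0 := fun h => hzi (by rw [h, mul_zero])
            field_simp
          · intro h3
            have h4 : r i (κ i N) = 0 := by
              rcases mul_eq_zero.mp h3 with h | h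
              · exact h
              · exact absurd h hzi
            have h5 := h1 i
            rw [h4, zero_pow two_ne_zero, hκdef] at h5
            exact (div_ne_zero (mul_ne_zero (h2' i) (h2 i)) (mul_ne_zero hc hzi)) h5.symm)
        (1 / ((N : ℝ) + 1)) (by positivity)
      exact ⟨g, y, g1, g2, fun _ _ _ => ⟨g3, g4, g5⟩⟩
    · refine ⟨X ^ n, 0, monic_X_pow n, natDegree_X_pow n, fun h2 h3 h4 =>
        absurd ⟨h2, h3, h4⟩ h1⟩
  choose g y hg1 hg2 hg3 using hex2
  have hEv : ∀ᶠ N in atTop, (MvPolynomial.eval (fun j => Z j N) G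
        * MvPolynomial.eval (fun j => Z j N) H) * (g N).discr = y N ^ 2 ∧
        y N ≠ 0 ∧
        ∀ i, ‖φ i (y N) - r i (κ i N) * MvPolynomial.eval₂ (φ i) (x i) H‖
            < 1 / ((N : ℝ) + 1) ∧
          ∀ j, ‖((g N).map (φ i)).coeff j - (f i).coeff j‖ < 1 / ((N : ℝ) + 1) := by
    filter_upwards [hs2, hs3, hs4] with N h1 h2 h3
    exact hg3 N h1 h2 h3
  have hy : ∀ i, Tendsto (fun N => φ i (y N)) atTop (𝓝 (MvPolynomial.eval₂ (φ i) (x i) H)) := by
    intro i
    have h1 : Tendsto (fun N => r i (κ i N) * MvPolynomial.eval₂ (φ i) (x i) H) atTop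
        (𝓝 (MvPolynomial.eval₂ (φ i) (x i) H)) := by
      simpa using (hs1 i).mul_const (MvPolynomial.eval₂ (φ i) (x i) H)
    have h2 : Tendsto (fun N => φ i (y N) - r i (κ i N) * MvPolynomial.eval₂ (φ i) (x i) H)
        atTop (𝓝 0) := by
      rw [tendsto_zero_iff_norm_tendsto_zero]
      refine squeeze_zero' (Eventually.of_forall fun N => norm_nonneg _) ?_
        tendsto_one_div_add_atTop_nhds_zero_nat
      filter_upwards [hEv] with N hN
      exact (hN.2.2 i).1.le
    simpa using h2.add h1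
  have hgt : ∀ i j, Tendsto (fun N => φ i ((g N).coeff j)) atTop (𝓝 ((f i).coeff j)) := by
    intro i j
    rw [tendsto_iff_norm_sub_tendsto_zero]
    refine squeeze_zero' (Eventually.of_forall fun N => norm_nonneg _) ?_
      tendsto_one_div_add_atTop_nhds_zero_nat
    filter_upwards [hEv] with N hN
    have := ((hN.2.2 i).2 j).le
    rwa [coeff_map] at this
  -- the ratio
  set ρ : ℕ → k := fun N => y N / MvPolynomial.eval (fun j => Z j N) H with hρ
  have hl : ∀ i, Tendsto (fun N => φ i (ρ N)) atTop (𝓝 1) := by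
    intro i
    have h := (hy i).div (hEv0 H i) (hz i)
    rw [div_self (hz i)] at h
    refine h.congr fun N => ?_
    exact (map_div₀ (φ i) _ _).symm
  have hlz : ∀ i (c : ℤ), Tendsto (fun N => φ i (ρ N) ^ c) atTop (𝓝 1) := by
    intro i c
    have h := (hl i).zpow₀ c (Or.inl one_ne_zero)
    simpa using h
  refine ⟨fun N j => (ρ N ^ B) ^ e j * Z j N, fun N => (g N).scaleRoots (ρ N ^ A), ?_, ?_, ?_, ?_⟩
  · intro N
    exact ⟨(monic_scaleRoots_iff _).mpr (hg1 N), by rw [natDegree_scaleRoots, hg2 N]⟩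
  · obtain ⟨i0⟩ := ‹Nonempty ι›
    filter_upwards [hEv, hs3] with N hN hN3
    obtain ⟨h1, h2, -⟩ := hN
    have h3 : MvPolynomial.eval (fun j => Z j N) H ≠ 0 := by
      intro h
      exact hN3 i0 (by rw [h, map_zero])
    have hρ0 : ρ N ≠ 0 := div_ne_zero h2 h3
    have h4 : MvPolynomial.eval (fun j => Z j N) G * (g N).discr
        = ρ N ^ 2 * MvPolynomial.eval (fun j => Z j N) H := by
      simp only [hρ]
      field_simp
      linear_combination h1
    have hB0 : ρ N ^ B ≠ 0 := zpow_ne_zero _ hρ0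
    have h5 := eval_weighted hG hB0 (fun j => Z j N)
    have h6 := eval_weighted hH hB0 (fun j => Z j N)
    constructor
    · rw [h5, h6, discr_scaleRoots (hg1 N), hg2 N]
      have h7 : (ρ N ^ B) ^ a * (ρ N ^ A) ^ (n * (n - 1)) * ρ N ^ 2 = (ρ N ^ B) ^ b := by
        rw [← zpow_mul, ← zpow_mul, ← zpow_natCast (ρ N ^ A), ← zpow_mul,
          ← zpow_natCast (ρ N) 2, ← zpow_add₀ hρ0, ← zpow_add₀ hρ0]
        congr 1
        push_cast at hAB ⊢
        linear_combination hAB
      calc (ρ N ^ B) ^ a * MvPolynomial.eval (fun j => Z j N) G *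
            ((ρ N ^ A) ^ (n * (n - 1)) * (g N).discr)
          = (ρ N ^ B) ^ a * (ρ N ^ A) ^ (n * (n - 1)) *
            (MvPolynomial.eval (fun j => Z j N) G * (g N).discr) := by ring
        _ = (ρ N ^ B) ^ a * (ρ N ^ A) ^ (n * (n - 1)) * ρ N ^ 2 *
            MvPolynomial.eval (fun j => Z j N) H := by rw [h4]; ring
        _ = (ρ N ^ B) ^ b * MvPolynomial.eval (fun j => Z j N) H := by rw [h7]
    · rw [h6]
      exact mul_ne_zero (zpow_ne_zero _ hB0) h3
  · intro i j
    have h2 := (hlz i (B * e j)).mul (hZ j i)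
    simpa only [map_mul, map_zpow₀, one_mul, zpow_mul] using h2
  · intro i j
    have h1 : ∀ N, (((g N).scaleRoots (ρ N ^ A)).map (φ i)).coeff j
        = φ i ((g N).coeff j) * (φ i (ρ N) ^ A) ^ (n - j) := by
      intro N
      rw [coeff_map, coeff_scaleRoots, hg2 N, map_mul, map_pow, map_zpow₀]
    simp only [h1]
    have h2 := (hgt i j).mul ((hlz i A).pow (n - j))
    simpa using h2

end

/-- convergence of points of the variety -/
theorem QuasiPts.tendsto {k : Type*} [Field k] {R : Type*} [NormedField R] [Algebra k R] {s n : ℕ}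
    {G H : MvPolynomial (Fin s) k} (p : ℕ → QuasiPts G H n R) (q : QuasiPts G H n R)
    (h0 : ∀ i : Fin s, Tendsto (fun N => (p N).1.1 i) atTop (𝓝 (q.1.1 i)))
    (h1 : ∀ i : Fin n, Tendsto (fun N => (p N).1.2 i) atTop (𝓝 (q.1.2 i))) :
    Tendsto p atTop (𝓝 q) := by
  have key : Tendsto (fun N => (p N).1) atTop (𝓝 q.1) := by
    rw [Prod.tendsto_iff]
    exact ⟨tendsto_pi_nhds.mpr h0, tendsto_pi_nhds.mpr h1⟩
  exact tendsto_subtype_rng.2 key

theorem quasi_main {k : Type*} [Field k] [NumberField k] {s : ℕ} (G H : MvPolynomial (Fin s) k)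
    (e : Fin s → ℤ) {a b : ℤ} (hG : G.IsWeightedHomogeneous e a)
    (hH : H.IsWeightedHomogeneous e b) {n : ℕ} (hn : 2 ≤ n)
    (hgcd : Int.gcd (b - a) ((n * (n - 1) : ℕ) : ℤ) ∣ 2)
    (T : Finset (HeightOneSpectrum (𝓞 k))) :
    DenseRange (fun p : QuasiPts G H n k =>
      ((fun v : InfinitePlace k => mapQuasiPt (Algebra.ofId k v.Completion) p),
       (fun v : T => mapQuasiPt (Algebra.ofId k (v.1.adicCompletion k)) p))) := by
  rintro ⟨P, Q⟩
  have hne : Nonempty (InfinitePlace k ⊕ {v // v ∈ T}) := ⟨Sum.inl (Classical.arbitrary _)⟩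
  let D0 : ∀ i, Fin s → Compl T i := fun i =>
    match i with
    | Sum.inl v => (P v).1.1
    | Sum.inr v => (Q v).1.1
  let D1 : ∀ i, Fin n → Compl T i := fun i =>
    match i with
    | Sum.inl v => (P v).1.2
    | Sum.inr v => (Q v).1.2
  obtain ⟨U, g, hg, hgw, hUt, hgt⟩ := quasiWA (φ := complEmb T) (fieldWA_numberField T)
    (n := n) G H e hG hH hgcd
    (fun c => DiscRat.discWA_all (fieldWA_numberField T) (compl_one_lt_norm T) hn c)
    (sqrtNearOne_compl T) D0 (fun i => monicPoly (D1 i))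
    (fun i => ⟨monicPoly_monic _, monicPoly_natDegree _⟩)
    (by
      rintro (v | v)
      · exact (P v).2.1
      · exact (Q v).2.1)
    (by
      rintro (v | v)
      · exact (P v).2.2
      · exact (Q v).2.2)
  obtain ⟨N0, hN0⟩ := Filter.eventually_atTop.mp hgw
  let p : ℕ → QuasiPts G H n k := fun N =>
    ⟨(U (N0 + N), fun i : Fin n => (g (N0 + N)).coeff i), by
      obtain ⟨h1, h2⟩ := hN0 (N0 + N) (Nat.le_add_right _ _)
      refine ⟨?_, ?_⟩
      · change MvPolynomial.aeval (U (N0 + N)) G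
          * (monicPoly (fun i : Fin n => (g (N0 + N)).coeff i)).discr =
            MvPolynomial.aeval (U (N0 + N)) H
        rw [monicPoly_of_monic (hg _).1 (hg _).2, MvPolynomial.aeval_eq_eval]
        exact h1
      · change MvPolynomial.aeval (U (N0 + N)) H ≠ 0
        rw [MvPolynomial.aeval_eq_eval]
        exact h2⟩
  have hshift : Tendsto (fun N : ℕ => N0 + N) atTop atTop :=
    Filter.tendsto_atTop_mono (fun N => Nat.le_add_left N N0) tendsto_id
  have hp0 : ∀ i (j : Fin s), Tendsto (fun N => complEmb T i ((p N).1.1 j)) atTop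
      (𝓝 (D0 i j)) := fun i j => (hUt i j).comp hshift
  have hp1 : ∀ i (j : Fin n), Tendsto (fun N => complEmb T i ((p N).1.2 j)) atTop
      (𝓝 (D1 i j)) := by
    intro i j
    have h := (hgt i j).comp hshift
    rw [monicPoly_coeff] at h
    refine h.congr fun N => ?_
    exact coeff_map _ _
  refine mem_closure_of_tendsto (f := fun N => ((fun v : InfinitePlace k =>
    mapQuasiPt (Algebra.ofId k v.Completion) (p N)),
    (fun v : T => mapQuasiPt (Algebra.ofId k (v.1.adicCompletion k)) (p N)))) (b := atTop) ?_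
    (Filter.Eventually.of_forall fun N => ⟨p N, rfl⟩)
  rw [Prod.tendsto_iff]
  constructor
  · rw [tendsto_pi_nhds]
    intro v
    exact QuasiPts.tendsto _ _ (fun j => hp0 (Sum.inl v) j) (fun j => hp1 (Sum.inl v) j)
  · rw [tendsto_pi_nhds]
    intro v
    exact QuasiPts.tendsto _ _ (fun j => hp0 (Sum.inr v) j) (fun j => hp1 (Sum.inr v) j)

/-- Weak approximation, product over all places. -/
theorem quasi_main_all {k : Type*} [Field k] [NumberField k] {s : ℕ}
    (G H : MvPolynomial (Fin s) k)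
    (e : Fin s → ℤ) {a b : ℤ} (hG : G.IsWeightedHomogeneous e a)
    (hH : H.IsWeightedHomogeneous e b) {n : ℕ} (hn : 2 ≤ n)
    (hgcd : Int.gcd (b - a) ((n * (n - 1) : ℕ) : ℤ) ∣ 2) :
    DenseRange (fun p : QuasiPts G H n k =>
      ((fun v : InfinitePlace k => mapQuasiPt (Algebra.ofId k v.Completion) p),
       (fun v : HeightOneSpectrum (𝓞 k) =>
        mapQuasiPt (Algebra.ofId k (v.adicCompletion k)) p))) := by
  classical
  rintro ⟨A, B⟩
  rw [mem_closure_iff_nhds]
  intro U hU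
  rw [nhds_prod_eq, Filter.mem_prod_iff] at hU
  obtain ⟨U1, hU1, U2, hU2, hsub⟩ := hU
  rw [nhds_pi, Filter.mem_pi] at hU2
  obtain ⟨I, hI, t, ht, hts⟩ := hU2
  set T : Finset (HeightOneSpectrum (𝓞 k)) := hI.toFinset with hTdef
  have hdense := quasi_main G H e hG hH hn hgcd T
  have h1 := hdense (A, fun v => B v.1)
  rw [mem_closure_iff_nhds] at h1
  have hnhds : U1 ×ˢ (Set.pi Set.univ (fun v : {v // v ∈ T} => t v.1)) ∈
      nhds (A, fun v : {v // v ∈ T} => B v.1) := by
    rw [nhds_prod_eq]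
    refine Filter.prod_mem_prod hU1 ?_
    exact set_pi_mem_nhds Set.finite_univ (fun v _ => ht v.1)
  obtain ⟨_, ⟨hp1, hp2⟩, p, rfl⟩ := h1 _ hnhds
  refine ⟨_, hsub ⟨hp1, hts ?_⟩, p, rfl⟩
  intro v hv
  exact hp2 ⟨v, hI.mem_toFinset.mpr hv⟩ (Set.mem_univ _)

end AnWA
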